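import Mathlib

set_option autoImplicit false
set_option linter.unusedSectionVars false

namespace Pool.Agent.P.MP_e72dc0_lc.Sy

open MvPolynomial

variable {σ F : Type*} [Field F]

/-- Derivative in the constant direction `x`. -/
noncomputable def D (x : σ → F) : Derivation F (MvPolynomial σ F) (MvPolynomial σ F) :=
  mkDerivation F fun v => C (x v)

@[simp] theorem D_X (x : σ → F) (v : σ) : D x (X v) = C (x v) := mkDerivation_X _ _ _

@[simp] theorem D_C (x : σ → F) (c : F) : D x (C c) = 0 := derivation_C _ _

theorem D_add (x y : σ → F) : D (x + y) = D x + D y :=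
  derivation_ext fun v => by simp

theorem D_smul (c : F) (x : σ → F) : D (c • x) = c • D x :=
  derivation_ext fun v => by simp [smul_eq_C_mul]

theorem D_rename (x : σ → F) (g : σ → σ) (f : MvPolynomial σ F) :
    D x (rename g f) = rename g (D (x ∘ g) f) := by
  induction f using MvPolynomial.induction_on with
  | C c => simp
  | add p q hp hq => simp [hp, hq]
  | mul_X p v hp => simp [hp]

/-- The linear part of `f`. -/
noncomputable def L (f : MvPolynomial σ F) : (σ → F) →ₗ[F] F where
  toFun x := constantCoeff (D x f)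
  map_add' x y := by simp [D_add]
  map_smul' c x := by simp [D_smul]

theorem L_apply (f : MvPolynomial σ F) (x : σ → F) : L f x = constantCoeff (D x f) := rfl

theorem L_rename (x : σ → F) (g : σ → σ) (f : MvPolynomial σ F) :
    L (rename g f) x = L f (x ∘ g) := by
  rw [L_apply, D_rename, constantCoeff_rename, L_apply]

theorem L_zero_of_fixed {g : σ → σ} {f : MvPolynomial σ F} (h : rename g f = f) (x : σ → F) :
    L f (x - x ∘ g) = 0 := by
  rw [map_sub, ← L_rename, h, sub_self]

/-- The polarised quadratic part. -/
noncomputable def Q (x y : σ → F) : MvPolynomial σ F →ₗ[F] F where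
  toFun f := constantCoeff (D y (D x f))
  map_add' f g := by simp
  map_smul' c f := by simp

theorem Q_apply (x y : σ → F) (f : MvPolynomial σ F) : Q x y f = constantCoeff (D y (D x f)) := rfl

theorem Q_X (x y : σ → F) (v : σ) : Q x y (X v) = 0 := by simp [Q_apply]

theorem Q_one (x y : σ → F) : Q x y 1 = 0 := by simp [Q_apply]

theorem Q_XX (x y : σ → F) (u v : σ) : Q x y (X u * X v) = x u * y v + x v * y u := by
  simp [Q_apply]
  ring

open Classical in
theorem D_prod (x : σ → F) (M : Multiset (MvPolynomial σ F)) :
    D x M.prod = (M.map fun u => (M.erase u).prod * D x u).sum := by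
  induction M using Multiset.induction_on with
  | empty => simp
  | cons a M ih =>
    rw [Multiset.prod_cons, Derivation.leibniz, ih, Multiset.map_cons, Multiset.sum_cons,
      Multiset.erase_cons_head, smul_eq_mul, smul_eq_mul, add_comm, ← Multiset.sum_map_mul_left]
    congr 2
    refine Multiset.map_congr rfl fun u hu => ?_
    rw [← mul_assoc]
    congr 1
    by_cases e : a = u
    · subst e
      rw [Multiset.erase_cons_head, Multiset.prod_erase hu]
    · rw [Multiset.erase_cons_tail _ e, Multiset.prod_cons]

open Classical in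
theorem Q_prod (x y : σ → F) (M : Multiset (MvPolynomial σ F)) :
    Q x y M.prod = (M.map fun u => constantCoeff (M.erase u).prod * Q x y u +
      L u x * L (M.erase u).prod y).sum := by
  have e : ∀ f, D y f = (D y).toLinearMap f := fun _ => rfl
  rw [Q_apply, D_prod, e, map_multiset_sum, map_multiset_sum, Multiset.map_map, Multiset.map_map]
  congr 1
  refine Multiset.map_congr rfl fun u _ => ?_
  simp [Q_apply, L_apply]

open Classical in
/-- All quadratic parts lie in the span of the products attached to the wires. -/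
theorem mem_span_wires {A B : Type*} (x : A → σ → F) (y : B → σ → F)
    (𝓜 : Finset (Multiset (MvPolynomial σ F))) (ht : Multiset (MvPolynomial σ F) → ℕ)
    (hg : ∀ M ∈ 𝓜, ∀ u ∈ M, u ∈ Submodule.span F
      (Set.range X ∪ {1} ∪ {p | ∃ N ∈ 𝓜, ht N < ht M ∧ p = N.prod}))
    (V : Submodule F (A → B → F))
    (hV : ∀ M ∈ 𝓜, ∀ u ∈ M, (fun a b => L u (x a) * L (M.erase u).prod (y b)) ∈ V)
    {f : MvPolynomial σ F}
    (hf : f ∈ Submodule.span F (Set.range X ∪ {1} ∪ {p | ∃ N ∈ 𝓜, p = N.prod})) :
    (fun a b => Q (x a) (y b) f) ∈ V := by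
  let Φ : MvPolynomial σ F →ₗ[F] (A → B → F) :=
    LinearMap.pi fun a => LinearMap.pi fun b => Q (x a) (y b)
  have hΦ : ∀ f, Φ f = fun a b => Q (x a) (y b) f := fun _ => rfl
  have key : ∀ S : Set (MvPolynomial σ F), (∀ p ∈ S, Φ p ∈ V) →
      ∀ f ∈ Submodule.span F (Set.range X ∪ {1} ∪ S), Φ f ∈ V := by
    intro S hS
    change Submodule.span F _ ≤ V.comap Φ
    rw [Submodule.span_le]
    rintro p ((⟨v, rfl⟩ | rfl) | hp)
    · change Φ _ ∈ V
      have : Φ (X v) = 0 := by ext a b; exact Q_X _ _ _
      rw [this]; exact V.zero_mem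
    · change Φ _ ∈ V
      have : Φ 1 = 0 := by ext a b; exact Q_one _ _
      rw [this]; exact V.zero_mem
    · exact hS p hp
  have main : ∀ n, ∀ M ∈ 𝓜, ht M = n → Φ M.prod ∈ V := by
    intro n
    induction n using Nat.strong_induction_on with
    | _ n ih =>
      intro M hM hn
      have e : Φ M.prod = (M.map fun u => constantCoeff (M.erase u).prod • Φ u +
          fun a b => L u (x a) * L (M.erase u).prod (y b)).sum := by
        ext a b
        have e1 : ∀ s : Multiset (A → B → F), s.sum a b = (s.map fun φ => φ a b).sum := by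
          intro s
          induction s using Multiset.induction_on with
          | empty => simp
          | cons φ s ih => simp [ih]
        rw [e1, Multiset.map_map, hΦ]
        exact Q_prod _ _ _
      rw [e]
      refine V.multiset_sum_mem _ fun φ hφ => ?_
      obtain ⟨u, hu, rfl⟩ := Multiset.mem_map.1 hφ
      refine V.add_mem (V.smul_mem _ (key _ ?_ u (hg M hM u hu))) (hV M hM u hu)
      rintro _ ⟨N, hN, h1, rfl⟩
      exact ih _ (hn ▸ h1) N hN rfl
  refine key _ ?_ f hf
  rintro _ ⟨N, hN, rfl⟩
  exact main _ N hN rfl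

end Pool.Agent.P.MP_e72dc0_lc.Sy
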