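import Mathlib
import Pool.Agent.P.MP_e72dc0_lc.Sy.Jet

set_option autoImplicit false
set_option linter.unusedSectionVars false

namespace Pool.Agent.P.MP_e72dc0_lc.Sy

open MvPolynomial Finset Matrix
open scoped symmDiff

theorem card_image_le_sum {X Y : Type*} [DecidableEq Y] (S : Finset X) (θ : X → Y) (q : X → ℝ)
    (hq : ∀ w ∈ S, 0 < q w ∧ q w ≤ #{v ∈ S | θ v = θ w}) :
    (#(S.image θ) : ℝ) ≤ ∑ w ∈ S, 1 / q w := by
  rw [← sum_fiberwise_of_maps_to (g := θ) (t := S.image θ) (fun w hw => mem_image_of_mem θ hw),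
    card_eq_sum_ones, Nat.cast_sum]
  refine sum_le_sum fun y hy => ?_
  obtain ⟨w, hw, rfl⟩ := mem_image.1 hy
  have hpos : (0 : ℝ) < #{v ∈ S | θ v = θ w} := (hq w hw).1.trans_le (hq w hw).2
  calc ((1 : ℕ) : ℝ) = ∑ v ∈ S with θ v = θ w, 1 / (#{v ∈ S | θ v = θ w} : ℝ) := by
        rw [sum_const, nsmul_eq_mul, mul_one_div_cancel hpos.ne', Nat.cast_one]
    _ ≤ _ := sum_le_sum fun v hv => by
        obtain ⟨h1, h2⟩ := mem_filter.1 hv
        refine one_div_le_one_div_of_le (hq v h1).1 ?_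
        rw [← h2]
        exact (hq v h1).2

/-- Row and column indices: `r` pairs of blocks of size `k`, and further indices `E`. -/
abbrev Idx (r k : ℕ) (E : Type) : Type := (Fin r × Bool × Fin k) ⊕ E

/-- The entries of the two factors. -/
abbrev Var (r k : ℕ) (E : Type) : Type := (Idx r k E × Idx r k E) ⊕ (Idx r k E × Idx r k E)

variable {r k : ℕ} {E : Type} {F : Type*} [Field F]

/-- Swapping the two blocks of all pairs in `s`. -/
def act (s : Finset (Fin r)) : Idx r k E → Idx r k E :=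
  Sum.map (fun y => (y.1, if y.1 ∈ s then !y.2.1 else y.2.1, y.2.2)) id

/-- The action on variables. -/
def sv (s : Finset (Fin r)) : Var r k E → Var r k E :=
  Sum.map (Prod.map (act s) (act s)) (Prod.map (act s) (act s))

theorem act_empty : act (∅ : Finset (Fin r)) = (id : Idx r k E → Idx r k E) := by
  ext (y | y) <;> simp [act]

theorem act_comp (s t : Finset (Fin r)) :
    (act s ∘ act t : Idx r k E → Idx r k E) = act (s ∆ t) := by
  ext (y | y)
  · by_cases h1 : y.1 ∈ s <;> by_cases h2 : y.1 ∈ t <;> simp [act, h1, h2, mem_symmDiff]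
  · simp [act]

theorem sv_empty : sv (∅ : Finset (Fin r)) = (id : Var r k E → Var r k E) := by
  ext (y | y) <;> simp [sv, act_empty]

theorem sv_comp (s t : Finset (Fin r)) :
    (sv s ∘ sv t : Var r k E → Var r k E) = sv (s ∆ t) := by
  ext (y | y) <;> simp [sv, ← act_comp, Prod.map_map]

theorem rn_rn (s t : Finset (Fin r)) (p : MvPolynomial (Var r k E) F) :
    rename (sv s) (rename (sv t) p) = rename (sv (s ∆ t)) p := by
  rw [rename_rename, sv_comp]

theorem rn_empty (p : MvPolynomial (Var r k E) F) : rename (sv (∅ : Finset (Fin r))) p = p := by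
  rw [sv_empty, rename_id_apply]

theorem rn_self (s : Finset (Fin r)) (p : MvPolynomial (Var r k E) F) :
    rename (sv s) (rename (sv s) p) = p := by
  rw [rn_rn, symmDiff_self, bot_eq_empty, rn_empty]

/-- Equal up to a nonzero scalar. -/
def Par {V : Type*} [AddCommGroup V] [Module F V] (p q : V) : Prop := ∃ c : F, c ≠ 0 ∧ q = c • p

theorem pm_of_par {s t : Finset (Fin r)} {p q : MvPolynomial (Var r k E) F}
    (h1 : Par (F := F) (rename (sv s) p) q) (h2 : Par (F := F) (rename (sv t) p) q) :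
    rename (sv s) p = rename (sv t) p ∨ rename (sv s) p = -rename (sv t) p := by
  obtain ⟨c, hc, e1⟩ := h1
  obtain ⟨d, hd, e2⟩ := h2
  have e3 : rename (sv s) p = (c⁻¹ * d) • rename (sv t) p := by
    rw [mul_smul, ← e2, e1, inv_smul_smul₀ hc]
  have e4 : rename (sv (s ∆ t)) (rename (sv t) p) = rename (sv s) p := by
    rw [rn_rn, symmDiff_symmDiff_cancel_right]
  have e5 : rename (sv t) p = ((c⁻¹ * d) * (c⁻¹ * d)) • rename (sv t) p := by
    conv_lhs => rw [← rn_self (s ∆ t) (rename (sv t) p), e4, e3, map_smul, e4, e3, ← mul_smul]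
  by_cases h0 : rename (sv t) p = 0
  · left
    rw [e3, h0, smul_zero]
  · have e6 : (c⁻¹ * d) * (c⁻¹ * d) = 1 :=
      smul_left_injective F h0 (by simp only [one_smul]; exact e5.symm)
    rcases mul_self_eq_one_iff.1 e6 with h | h
    · left
      rw [e3, h, one_smul]
    · right
      rw [e3, h, neg_one_smul]

theorem card_le_four {ι : Type*} (w : MvPolynomial (Var r k E) F × MvPolynomial (Var r k E) F)
    (S : Finset (MvPolynomial (Var r k E) F × MvPolynomial (Var r k E) F)) (Z : Finset ι)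
    (σ : ι → Finset (Fin r))
    (hS : ∀ i ∈ Z, ∃ v ∈ S, Par (F := F) (rename (sv (σ i)) w.1) v.1 ∧
      Par (F := F) (rename (sv (σ i)) w.2) v.2)
    (hZ : ∀ i ∈ Z, ∀ j ∈ Z, rename (sv (σ i ∆ σ j)) w.1 = w.1 → rename (sv (σ i ∆ σ j)) w.2 = w.2 →
      i = j) : #Z ≤ 4 * #S := by
  classical
  choose! f hf1 hf2 hf3 using hS
  refine (card_le_mul_card_image (f := f) _ 4 fun v hv => ?_).trans
    (Nat.mul_le_mul_left 4 (card_le_card fun v hv => ?_))
  · obtain ⟨t, ht, rfl⟩ := mem_image.1 hv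
    refine (card_le_card_of_injOn (t := {rename (sv (σ t)) w.1, -rename (sv (σ t)) w.1} ×ˢ
      {rename (sv (σ t)) w.2, -rename (sv (σ t)) w.2})
      (fun s => (rename (sv (σ s)) w.1, rename (sv (σ s)) w.2)) (fun s hs => ?_)
      fun s hs s' hs' e => ?_).trans ?_
    · obtain ⟨h1, h2⟩ := mem_filter.1 (mem_coe.1 hs)
      simp only [coe_product, coe_insert, coe_singleton, Set.mem_prod, Set.mem_insert_iff,
        Set.mem_singleton_iff]
      exact ⟨pm_of_par (h2 ▸ hf2 s h1) (hf2 t ht), pm_of_par (h2 ▸ hf3 s h1) (hf3 t ht)⟩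
    · obtain ⟨e1, e2⟩ := Prod.mk.inj e
      exact hZ s (mem_filter.1 (mem_coe.1 hs)).1 s' (mem_filter.1 (mem_coe.1 hs')).1
        (by rw [← rn_rn, ← e1, rn_self]) (by rw [← rn_rn, ← e2, rn_self])
    · rw [card_product]
      exact Nat.mul_le_mul (card_le_two) (card_le_two)
  · obtain ⟨t, ht, rfl⟩ := mem_image.1 hv
    exact hf1 t ht

/-- The support of a binary vector. -/
def sp (x : Fin r → ZMod 2) : Finset (Fin r) := {i | x i = 1}

theorem mem_sp {x : Fin r → ZMod 2} {i : Fin r} : i ∈ sp x ↔ x i = 1 := by simp [sp]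

theorem notMem_sp {x : Fin r → ZMod 2} {i : Fin r} : i ∉ sp x ↔ x i = 0 := by
  rw [mem_sp]
  generalize x i = c
  revert c
  decide

theorem sp_zero : sp (0 : Fin r → ZMod 2) = ∅ :=
  eq_empty_of_forall_notMem fun _ => notMem_sp.2 rfl

theorem sp_add (x y : Fin r → ZMod 2) : sp (x + y) = sp x ∆ sp y := by
  ext i
  simp only [mem_symmDiff, mem_sp, Pi.add_apply]
  generalize x i = c
  generalize y i = d
  revert c d
  decide

/-- Pairwise different functionals on `K`: as many elements of `K` that they separate. -/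
theorem exists_sep {V ι : Type*} [AddCommGroup V] [Module (ZMod 2) V] [Fintype ι]
    (K : Submodule (ZMod 2) V) (φ : ι → V →ₗ[ZMod 2] ZMod 2)
    (h : ∀ i j, (∀ x ∈ K, φ i x = φ j x) → i = j) :
    ∃ Z : Finset V, Fintype.card ι ≤ #Z ∧ (∀ x ∈ Z, x ∈ K) ∧
      ∀ x ∈ Z, ∀ y ∈ Z, (∀ i, φ i x = φ i y) → x = y := by
  classical
  let C := K.map (LinearMap.pi φ)
  have := Fintype.ofFinite C
  choose g hg1 hg2 using fun γ : C => Submodule.mem_map.1 γ.2
  have hinj : ∀ γ δ : C, (∀ i, φ i (g γ) = φ i (g δ)) → γ = δ := fun γ δ e =>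
    Subtype.ext (by rw [← hg2, ← hg2]; exact funext e)
  refine ⟨univ.image g, ?_, fun x hx => ?_, fun x hx y hy e => ?_⟩
  · rw [card_image_of_injective _ fun γ δ e => hinj γ δ fun i => by rw [e], card_univ,
      ← Nat.card_eq_fintype_card, ← Nat.card_eq_fintype_card,
      Nat.card_congr (Module.finBasis (ZMod 2) C).toDualEquiv.toEquiv]
    have : Finite (Module.Dual (ZMod 2) C) :=
      Finite.of_equiv _ (Module.finBasis (ZMod 2) C).toDualEquiv.toEquiv
    refine Nat.card_le_card_of_injective (fun i => (LinearMap.proj i) ∘ₗ C.subtype) fun i j e =>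
      h i j fun x hx => ?_
    exact LinearMap.congr_fun e ⟨_, Submodule.mem_map_of_mem hx⟩
  · obtain ⟨γ, -, rfl⟩ := mem_image.1 hx
    exact hg1 γ
  · obtain ⟨γ, -, rfl⟩ := mem_image.1 hx
    obtain ⟨δ, -, rfl⟩ := mem_image.1 hy
    rw [hinj γ δ e]

/-- A test matrix supported on the pair `a`. -/
def U (k : ℕ) (E : Type) (a : Fin r) (φ : Bool → F) : Matrix (Idx r k E) (Fin k) F :=
  Matrix.of fun i l => Sum.elim (fun y => if y.1 = a ∧ y.2.2 = l then φ y.2.1 else 0)
    (fun _ => 0) i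

theorem U_sub (a : Fin r) (φ ψ : Bool → F) :
    U k E a (φ - ψ) = U k E a φ - U k E a ψ := by
  ext (y | y) l
  · simp only [U, of_apply, Sum.elim_inl, Matrix.sub_apply, Pi.sub_apply]
    split_ifs <;> simp
  · simp [U]

theorem U_act (s : Finset (Fin r)) (a : Fin r) (φ : Bool → F) :
    (U k E a φ).submatrix (act s) id = U k E a (if a ∈ s then φ ∘ not else φ) := by
  ext (y | y) l
  · simp only [U, act, of_apply, submatrix_apply, Sum.map_inl, Sum.elim_inl, id]
    by_cases h : y.1 = a ∧ y.2.2 = l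
    · rw [if_pos h, if_pos h, h.1]
      split_ifs <;> rfl
    · rw [if_neg h, if_neg h]
  · simp [U, act]

theorem U_mul [Fintype E] (b : Fin r) (φ ψ : Bool → F) (h : ∑ p, φ p * ψ p = 1) :
    (U k E b φ)ᵀ * U k E b ψ = 1 := by
  ext l l'
  simp only [Matrix.mul_apply, transpose_apply, U, of_apply, Fintype.sum_sum_type, Sum.elim_inl,
    Sum.elim_inr, mul_zero, sum_const_zero, add_zero, Fintype.sum_prod_type, Matrix.one_apply]
  rw [Fintype.sum_eq_single b (fun i hi => by simp [hi])]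
  simp only [true_and]
  rw [sum_comm, Fintype.sum_eq_single l (fun i hi => by simp [hi])]
  split_ifs with h1 h2 <;> simp_all

/-- The sandwich of a small matrix. -/
def sw (E : Type) (a b : Fin r) (φ ψ : Bool → F) :
    Matrix (Fin k) (Fin k) F →ₗ[F] Matrix (Idx r k E) (Idx r k E) F where
  toFun P := U k E a φ * P * (U k E b ψ)ᵀ
  map_add' P P' := by rw [Matrix.mul_add, Matrix.add_mul]
  map_smul' c P := by rw [Matrix.mul_smul, Matrix.smul_mul, RingHom.id_apply]

theorem sw_apply (a b : Fin r) (φ ψ : Bool → F) (P : Matrix (Fin k) (Fin k) F) :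
    sw E a b φ ψ P = U k E a φ * P * (U k E b ψ)ᵀ := rfl

theorem sw_act (s : Finset (Fin r)) (a b : Fin r) (φ ψ : Bool → F) (P : Matrix (Fin k) (Fin k) F) :
    (sw E a b φ ψ P).submatrix (act s) (act s) =
      sw E a b (if a ∈ s then φ ∘ not else φ) (if b ∈ s then ψ ∘ not else ψ) P := by
  rw [sw_apply, sw_apply, ← U_act, ← U_act]
  ext i j
  simp [Matrix.mul_apply]

/-- A matrix as a direction in the first factor. -/
def xA : Matrix (Idx r k E) (Idx r k E) F →ₗ[F] (Var r k E → F) where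
  toFun A := Sum.elim (fun v => A v.1 v.2) 0
  map_add' A B := by ext (v | v) <;> simp
  map_smul' c A := by ext (v | v) <;> simp

/-- A matrix as a direction in the second factor. -/
def xB : Matrix (Idx r k E) (Idx r k E) F →ₗ[F] (Var r k E → F) where
  toFun A := Sum.elim 0 (fun v => A v.1 v.2)
  map_add' A B := by ext (v | v) <;> simp
  map_smul' c A := by ext (v | v) <;> simp

theorem xA_sv (s : Finset (Fin r)) (A : Matrix (Idx r k E) (Idx r k E) F) :
    xA A ∘ sv s = xA (A.submatrix (act s) (act s)) := by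
  ext (v | v) <;> rfl

theorem xB_sv (s : Finset (Fin r)) (A : Matrix (Idx r k E) (Idx r k E) F) :
    xB A ∘ sv s = xB (A.submatrix (act s) (act s)) := by
  ext (v | v) <;> rfl

theorem Q_out [Fintype E] (A B : Matrix (Idx r k E) (Idx r k E) F) (i j : Idx r k E) :
    Q (xA A) (xB B) (∑ l, X (Sum.inl (i, l)) * X (Sum.inr (l, j))) = (A * B) i j := by
  rw [map_sum, Matrix.mul_apply]
  refine sum_congr rfl fun l _ => ?_
  rw [Q_XX]
  change A i l * B l j + 0 * 0 = _
  rw [mul_zero, add_zero]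

/-- The indicator of the first block. -/
def d0 : Bool → F := fun b => if b then 1 else 0

/-- The difference of the two blocks. -/
def cb : Bool → F := d0 - d0 ∘ not

theorem sw_cb_left (a b : Fin r) (ψ : Bool → F) (P : Matrix (Fin k) (Fin k) F) :
    sw E a b cb ψ P = sw E a b d0 ψ P - sw E a b (d0 ∘ not) ψ P := by
  simp only [sw_apply, cb, U_sub, Matrix.sub_mul]

theorem sw_cb_right (a b : Fin r) (φ : Bool → F) (P : Matrix (Fin k) (Fin k) F) :
    sw E a b φ cb P = sw E a b φ d0 P - sw E a b φ (d0 ∘ not) P := by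
  simp only [sw_apply, cb, U_sub, transpose_sub, Matrix.mul_sub]

theorem sw_mul [Fintype E] (a b c : Fin r) (P P' : Matrix (Fin k) (Fin k) F) (l l' : Fin k) :
    (sw E a b cb cb P * sw E b c d0 cb P' : Matrix (Idx r k E) (Idx r k E) F)
      (Sum.inl (a, true, l)) (Sum.inl (c, true, l')) = (P * P') l l' := by
  have h : (U k E b (cb : Bool → F))ᵀ * U k E b (d0 : Bool → F) =
      (1 : Matrix (Fin k) (Fin k) F) := U_mul b cb d0 (by simp [cb, d0])
  have e : sw E a b cb cb P * sw E b c d0 cb P' = sw E a c cb cb (P * P') := by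
    simp only [sw_apply, Matrix.mul_assoc]
    rw [← Matrix.mul_assoc (U k E b cb)ᵀ, h, Matrix.one_mul]
  rw [e, sw_apply]
  simp [Matrix.mul_apply, U, cb, d0]

/-- The bilinear form attached to a wire. -/
noncomputable def fm (a b c : Fin r) (w : MvPolynomial (Var r k E) F × MvPolynomial (Var r k E) F)
    (P P' : Matrix (Fin k) (Fin k) F) : F :=
  L w.1 (xA (sw E a b cb cb P)) * L w.2 (xB (sw E b c d0 cb P'))

theorem L_smul {σ : Type*} (c : F) (p : MvPolynomial σ F) (x : σ → F) : L (c • p) x = c * L p x := by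
  simp [L_apply]

theorem fm_par {a b c : Fin r} {s : Finset (Fin r)} (ha : a ∉ s) (hb : b ∉ s) (hc : c ∉ s)
    {w v : MvPolynomial (Var r k E) F × MvPolynomial (Var r k E) F}
    (h1 : Par (F := F) (rename (sv s) w.1) v.1) (h2 : Par (F := F) (rename (sv s) w.2) v.2) :
    Par (F := F) (fm a b c w) (fm a b c v) := by
  obtain ⟨x, hx, e1⟩ := h1
  obtain ⟨y, hy, e2⟩ := h2
  refine ⟨x * y, mul_ne_zero hx hy, ?_⟩
  ext P P'
  simp only [fm, Pi.smul_apply, smul_eq_mul]
  rw [e1, e2, L_smul, L_smul, L_rename, L_rename, xA_sv, xB_sv, sw_act, sw_act]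
  simp only [ha, hb, hc, if_false]
  ring

theorem fm_zero {a b c : Fin r} {s : Finset (Fin r)}
    {w : MvPolynomial (Var r k E) F × MvPolynomial (Var r k E) F}
    (h1 : rename (sv s) w.1 = w.1) (h2 : rename (sv s) w.2 = w.2)
    (h : (a ∈ s ∧ b ∉ s) ∨ (a ∉ s ∧ b ∈ s) ∨ (b ∉ s ∧ c ∈ s)) : fm a b c w = 0 := by
  ext P P'
  unfold fm
  rcases h with ⟨ha, hb⟩ | ⟨ha, hb⟩ | ⟨hb, hc⟩
  · have := L_zero_of_fixed h1 (xA (sw E a b d0 cb P))
    rw [xA_sv, sw_act, if_pos ha, if_neg hb] at this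
    rw [sw_cb_left a b, map_sub xA]
    exact mul_eq_zero_of_left this _
  · have := L_zero_of_fixed h1 (xA (sw E a b cb d0 P))
    rw [xA_sv, sw_act, if_neg ha, if_pos hb] at this
    rw [sw_cb_right a b, map_sub xA]
    exact mul_eq_zero_of_left this _
  · have := L_zero_of_fixed h2 (xB (sw E b c d0 d0 P'))
    rw [xB_sv, sw_act, if_neg hb, if_pos hc] at this
    rw [sw_cb_right b c, map_sub xB]
    exact mul_eq_zero_of_right _ this

end Pool.Agent.P.MP_e72dc0_lc.Sy
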