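import Mathlib
import Pool.Agent.P.MP_e72dc0_lc.Sy.Main

set_option autoImplicit false
set_option linter.unusedSectionVars false

namespace Pool.Agent.P.MP_e72dc0_lc.Sy

open MvPolynomial Finset Matrix
open scoped symmDiff

variable {r k : ℕ} {E : Type} {F : Type*} [Field F]

theorem par_prod {A : Type*} [CommRing A] [Algebra F A] {M N : Multiset A}
    (h : Multiset.Rel (Par (F := F)) M N) : Par (F := F) M.prod N.prod := by
  induction h with
  | zero => exact ⟨1, one_ne_zero, (one_smul _ _).symm⟩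
  | cons h _ ih =>
    obtain ⟨c, hc, rfl⟩ := h
    obtain ⟨d, hd, e⟩ := ih
    refine ⟨c * d, mul_ne_zero hc hd, ?_⟩
    rw [Multiset.prod_cons, Multiset.prod_cons, e, smul_mul_smul_comm]

open Classical in
/-- The triples that a wire serves. -/
noncomputable def srv (R1 R2 R3 : Finset (Fin r))
    (w : MvPolynomial (Var r k E) F × MvPolynomial (Var r k E) F) : Finset (Fin r × Fin r × Fin r) :=
  {t ∈ R1 ×ˢ R2 ×ˢ R3 | fm t.1 t.2.1 t.2.2 w ≠ 0}

theorem mem_srv {R1 R2 R3 : Finset (Fin r)}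
    {w : MvPolynomial (Var r k E) F × MvPolynomial (Var r k E) F} {t : Fin r × Fin r × Fin r} :
    t ∈ srv R1 R2 R3 w ↔ t.1 ∈ R1 ∧ t.2.1 ∈ R2 ∧ t.2.2 ∈ R3 ∧ fm t.1 t.2.1 t.2.2 w ≠ 0 := by
  simp only [srv, mem_filter, mem_product, and_assoc]

/-- The symmetry `x` fixes both polynomials of the wire. -/
def Fx (w : MvPolynomial (Var r k E) F × MvPolynomial (Var r k E) F) (x : Fin r → ZMod 2) : Prop :=
  rename (sv (sp x)) w.1 = w.1 ∧ rename (sv (sp x)) w.2 = w.2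

theorem Fx.add {w : MvPolynomial (Var r k E) F × MvPolynomial (Var r k E) F} {x y : Fin r → ZMod 2}
    (hx : Fx w x) (hy : Fx w y) : Fx w (x + y) :=
  ⟨by rw [sp_add, ← rn_rn, hy.1, hx.1], by rw [sp_add, ← rn_rn, hy.2, hx.2]⟩

theorem Fx.served {w : MvPolynomial (Var r k E) F × MvPolynomial (Var r k E) F}
    {x : Fin r → ZMod 2} (hx : Fx w x) {a b c : Fin r} (h : fm a b c w ≠ 0) :
    x a + x b = 0 ∧ (x b = 0 → x c = 0) := by
  have h1 := mt (fm_zero (a := a) (b := b) (c := c) hx.1 hx.2) h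
  simp only [mem_sp] at h1
  generalize x a = p at h1
  generalize x b = q at h1
  generalize x c = s at h1
  revert p q s
  decide

theorem exists_partner (R1 : Finset (Fin r)) {R2 : Finset (Fin r)} (R3 : Finset (Fin r))
    (w : MvPolynomial (Var r k E) F × MvPolynomial (Var r k E) F) {b : Fin r} (hb : b ∈ R2)
    (c : Fin r) : ∃ (ε : ZMod 2) (ρ : Fin r), ρ ∈ R2 ∧ ∀ t ∈ srv R1 R2 R3 w, t.2.2 = c →
      ∀ x, Fx w x → x c + ε * x ρ = 0 := by
  by_cases h : ∃ t ∈ srv R1 R2 R3 w, t.2.2 = c ∧ ∃ x, Fx w x ∧ x c ≠ 0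
  · obtain ⟨t, ht, rfl, y, hy, hc⟩ := h
    obtain ⟨-, h2, -, h4⟩ := mem_srv.1 ht
    refine ⟨1, t.2.1, h2, fun _ _ _ x hx => ?_⟩
    have e1 := (hx.served h4).2
    have e2 := (hy.served h4).2
    have e3 := ((hx.add hy).served h4).2
    simp only [Pi.add_apply] at e3
    generalize x t.2.1 = p at *
    generalize x t.2.2 = q at *
    generalize y t.2.1 = p' at *
    generalize y t.2.2 = q' at *
    revert p q p' q'
    decide
  · refine ⟨0, b, hb, fun t ht e x hx => ?_⟩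
    rw [zero_mul, add_zero]
    by_contra h0
    exact h ⟨t, ht, e, x, hx, h0⟩

theorem srv_le {R1 R2 R3 : Finset (Fin r)} (h12 : Disjoint R1 R2) (h13 : Disjoint R1 R3)
    (h23 : Disjoint R2 R3) (w : MvPolynomial (Var r k E) F × MvPolynomial (Var r k E) F)
    {a b c : Fin r} (ha : a ∈ R1) (hb : b ∈ R2) (hc : c ∈ R3) (G : Finset (Fin r) → Prop)
    (G0 : G ∅) (G1 : ∀ s t, G s → G t → G (s ∆ t))
    (G2 : ∀ (i : Fin r) (T : Finset (Fin r)), #T ≤ 10 → i ∉ T → ∃ s, i ∈ s ∧ Disjoint s T ∧ G s)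
    (S : Finset (MvPolynomial (Var r k E) F × MvPolynomial (Var r k E) F))
    (hS : ∀ s, G s → a ∉ s → b ∉ s → c ∉ s → ∃ v ∈ S, Par (F := F) (rename (sv s) w.1) v.1 ∧
      Par (F := F) (rename (sv s) w.2) v.2) : #(srv R1 R2 R3 w) ≤ 4 * #S := by
  classical
  choose ε ρ hρ hε using exists_partner R1 R3 w hb
  let K : Submodule (ZMod 2) (Fin r → ZMod 2) :=
    { carrier := {x | G (sp x) ∧ x a = 0 ∧ x b = 0 ∧ x c = 0}
      add_mem' := fun hx hy => ⟨sp_add _ _ ▸ G1 _ _ hx.1 hy.1, by simp [hx.2.1, hy.2.1],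
        by simp [hx.2.2.1, hy.2.2.1], by simp [hx.2.2.2, hy.2.2.2]⟩
      zero_mem' := ⟨sp_zero ▸ G0, rfl, rfl, rfl⟩
      smul_mem' := fun e x hx => by
        rcases (by decide : ∀ e : ZMod 2, e = 0 ∨ e = 1) e with rfl | rfl
        · rw [zero_smul]
          exact ⟨sp_zero ▸ G0, rfl, rfl, rfl⟩
        · rwa [one_smul] }
  let pr : Fin r → (Fin r → ZMod 2) →ₗ[ZMod 2] ZMod 2 := fun i => LinearMap.proj i
  let φ : srv R1 R2 R3 w → (Fin r → ZMod 2) →ₗ[ZMod 2] ZMod 2 := fun t =>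
    pr t.1.1 + pr t.1.2.1 + (pr t.1.2.2 + ε t.1.2.2 • pr (ρ t.1.2.2))
  have hφ : ∀ t x, φ t x = x t.1.1 + x t.1.2.1 + (x t.1.2.2 + ε t.1.2.2 * x (ρ t.1.2.2)) :=
    fun _ _ => rfl
  have n12 : ∀ {i j}, i ∈ R1 → j ∈ R2 → i ≠ j := fun hi hj e => disjoint_left.1 h12 hi (e ▸ hj)
  have n13 : ∀ {i j}, i ∈ R1 → j ∈ R3 → i ≠ j := fun hi hj e => disjoint_left.1 h13 hi (e ▸ hj)
  have n23 : ∀ {i j}, i ∈ R2 → j ∈ R3 → i ≠ j := fun hi hj e => disjoint_left.1 h23 hi (e ▸ hj)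
  have test : ∀ (z : Fin r) (l : List (Fin r)), l.length ≤ 7 → z ≠ a → z ≠ b → z ≠ c →
      ∃ x ∈ K, x z = 1 ∧ ∀ i ∈ l, i ≠ z → x i = 0 := by
    intro z l hl za zb zc
    obtain ⟨s, h1, h2, h3⟩ := G2 z ((a :: b :: c :: l).toFinset.erase z)
      ((card_erase_le.trans (List.toFinset_card_le _)).trans (by simp only [List.length_cons]; omega)) (notMem_erase _ _)
    have e : sp (fun i => if i ∈ s then (1 : ZMod 2) else 0) = s := by
      ext i
      rw [mem_sp]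
      split_ifs with h <;> simp [h]
    have h4 : ∀ i ∈ a :: b :: c :: l, i ≠ z → (if i ∈ s then (1 : ZMod 2) else 0) = 0 :=
      fun i hi hz => if_neg fun h =>
        disjoint_left.1 h2 h (mem_erase.2 ⟨hz, List.mem_toFinset.2 hi⟩)
    exact ⟨fun i => if i ∈ s then 1 else 0, ⟨e.symm ▸ h3, h4 a (by simp) za.symm,
      h4 b (by simp) zb.symm, h4 c (by simp) zc.symm⟩, if_pos h1,
      fun i hi hz => h4 i (by simp [hi]) hz⟩
  have s1 : ∀ t u, (∀ x ∈ K, φ t x = φ u x) → t.1.1 ≠ a → t.1.1 = u.1.1 := by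
    intro t u h hz
    by_contra hne
    obtain ⟨t1, t2, t3, -⟩ := mem_srv.1 t.2
    obtain ⟨u1, u2, u3, -⟩ := mem_srv.1 u.2
    obtain ⟨x, hx, x1, x2⟩ := test t.1.1
      [t.1.2.1, t.1.2.2, ρ t.1.2.2, u.1.1, u.1.2.1, u.1.2.2, ρ u.1.2.2] le_rfl hz (n12 t1 hb) (n13 t1 hc)
    have := h x hx
    rw [hφ, hφ, x1, x2 _ (by simp) (n12 t1 t2).symm, x2 _ (by simp) (n13 t1 t3).symm,
      x2 _ (by simp) (n12 t1 (hρ _)).symm, x2 _ (by simp) (Ne.symm hne),
      x2 u.1.2.1 (by simp) (n12 t1 u2).symm, x2 u.1.2.2 (by simp) (n13 t1 u3).symm,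
      x2 (ρ u.1.2.2) (by simp) (n12 t1 (hρ _)).symm] at this
    simp at this
  have s3 : ∀ t u, (∀ x ∈ K, φ t x = φ u x) → t.1.2.2 ≠ c → t.1.2.2 = u.1.2.2 := by
    intro t u h hz
    by_contra hne
    obtain ⟨t1, t2, t3, -⟩ := mem_srv.1 t.2
    obtain ⟨u1, u2, u3, -⟩ := mem_srv.1 u.2
    obtain ⟨x, hx, x1, x2⟩ := test t.1.2.2
      [t.1.1, t.1.2.1, ρ t.1.2.2, u.1.1, u.1.2.1, u.1.2.2, ρ u.1.2.2] le_rfl (n13 ha t3).symm
      (n23 hb t3).symm hz
    have := h x hx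
    rw [hφ, hφ, x1, x2 t.1.1 (by simp) (n13 t1 t3), x2 t.1.2.1 (by simp) (n23 t2 t3),
      x2 (ρ t.1.2.2) (by simp) (n23 (hρ _) t3), x2 u.1.1 (by simp) (n13 u1 t3),
      x2 u.1.2.1 (by simp) (n23 u2 t3), x2 u.1.2.2 (by simp) (Ne.symm hne),
      x2 (ρ u.1.2.2) (by simp) (n23 (hρ _) t3)] at this
    simp at this
  have s2 : ∀ t u, (∀ x ∈ K, φ t x = φ u x) → t.1.1 = u.1.1 → t.1.2.2 = u.1.2.2 → t.1.2.1 ≠ b →
      t.1.2.1 = u.1.2.1 := by
    intro t u h e1 e3 hz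
    by_contra hne
    obtain ⟨t1, t2, t3, -⟩ := mem_srv.1 t.2
    obtain ⟨x, hx, x1, x2⟩ := test t.1.2.1 [u.1.2.1] (by simp) (n12 ha t2).symm hz (n23 t2 hc)
    have := h x hx
    rw [hφ, hφ, x1, ← e1, ← e3, x2 u.1.2.1 (by simp) (Ne.symm hne)] at this
    simp at this
  obtain ⟨Z, z1, z2, z3⟩ := exists_sep K φ fun t u h => by
    have h' : ∀ x ∈ K, φ u x = φ t x := fun x hx => (h x hx).symm
    have e1 : t.1.1 = u.1.1 := by
      by_cases e : t.1.1 = a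
      · by_cases e' : u.1.1 = a
        · rw [e, e']
        · exact (s1 u t h' e').symm
      · exact s1 t u h e
    have e3 : t.1.2.2 = u.1.2.2 := by
      by_cases e : t.1.2.2 = c
      · by_cases e' : u.1.2.2 = c
        · rw [e, e']
        · exact (s3 u t h' e').symm
      · exact s3 t u h e
    have e2 : t.1.2.1 = u.1.2.1 := by
      by_cases e : t.1.2.1 = b
      · by_cases e' : u.1.2.1 = b
        · rw [e, e']
        · exact (s2 u t h' e1.symm e3.symm e').symm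
      · exact s2 t u h e1 e3 e
    exact Subtype.ext (Prod.ext e1 (Prod.ext e2 e3))
  rw [Fintype.card_coe] at z1
  refine z1.trans (card_le_four w S Z sp (fun x hx => ?_) fun x hx y hy e1 e2 => z3 x hx y hy fun t => ?_)
  · obtain ⟨k1, k2, k3, k4⟩ := z2 x hx
    exact hS _ k1 (notMem_sp.2 k2) (notMem_sp.2 k3) (notMem_sp.2 k4)
  · have hF : Fx w (x + y) := ⟨by rwa [sp_add], by rwa [sp_add]⟩
    have : φ t (x + y) = 0 := by
      rw [hφ, (hF.served (mem_srv.1 t.2).2.2.2).1, hε _ t.1 t.2 rfl _ hF, add_zero]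
    rw [map_add] at this
    exact CharTwo.add_eq_zero.1 this

/-- The product of `k × k` matrices is a sum of `R` products of linear forms. -/
def Bil (F : Type*) [Field F] (k R : ℕ) : Prop :=
  ∃ (α β : Fin R → Matrix (Fin k) (Fin k) F →ₗ[F] F) (c : Fin R → Matrix (Fin k) (Fin k) F),
    ∀ P P', P * P' = ∑ t, (α t P * β t P') • c t

open Classical in
theorem triple [Fintype E] (𝓜 : Finset (Multiset (MvPolynomial (Var r k E) F)))
    (ht : Multiset (MvPolynomial (Var r k E) F) → ℕ)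
    (hg : ∀ M ∈ 𝓜, ∀ u ∈ M, u ∈ Submodule.span F
      (Set.range X ∪ {1} ∪ {p | ∃ N ∈ 𝓜, ht N < ht M ∧ p = N.prod}))
    (hout : ∀ i j : Idx r k E, ∑ l, X (Sum.inl (i, l)) * X (Sum.inr (l, j)) ∈ Submodule.span F
      (Set.range X ∪ {1} ∪ {p | ∃ N ∈ 𝓜, p = N.prod}))
    (W : Finset (MvPolynomial (Var r k E) F × MvPolynomial (Var r k E) F))
    (hW : ∀ M ∈ 𝓜, ∀ u ∈ M, (u, (M.erase u).prod) ∈ W)
    (hs : ∀ (i : Fin r) (T : Finset (Fin r)), #T ≤ 10 → i ∉ T → ∃ s, i ∈ s ∧ Disjoint s T ∧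
      ∀ w ∈ W, ∃ v ∈ W, Par (F := F) (rename (sv s) w.1) v.1 ∧ Par (F := F) (rename (sv s) w.2) v.2)
    {R1 R2 R3 : Finset (Fin r)} (h12 : Disjoint R1 R2) (h13 : Disjoint R1 R3)
    (h23 : Disjoint R2 R3) {a b c : Fin r} (ha : a ∈ R1) (hb : b ∈ R2) (hc : c ∈ R3) :
    ∃ R : ℕ, (R : ℝ) ≤ ∑ w ∈ W with fm a b c w ≠ 0, 1 / ((#(srv R1 R2 R3 w) : ℝ) / 4) ∧
      Bil F k R := by
  set S := {w ∈ W | fm a b c w ≠ 0} with hS
  let θ := fun w : MvPolynomial (Var r k E) F × MvPolynomial (Var r k E) F =>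
    Submodule.span F {fm a b c w}
  set Θ := S.image θ with hΘ
  refine ⟨#Θ, card_image_le_sum S _ _ fun w hw => ?_, ?_⟩
  · obtain ⟨h1, h2⟩ := mem_filter.1 hw
    have h0 : 0 < #(srv R1 R2 R3 w) := card_pos.2 ⟨(a, b, c), mem_srv.2 ⟨ha, hb, hc, h2⟩⟩
    have h3 := srv_le h12 h13 h23 w ha hb hc (fun s => ∀ w ∈ W, ∃ v ∈ W,
      Par (F := F) (rename (sv s) w.1) v.1 ∧ Par (F := F) (rename (sv s) w.2) v.2)
      (fun w hw => ⟨w, hw, ⟨1, one_ne_zero, by rw [rn_empty, one_smul]⟩,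
        ⟨1, one_ne_zero, by rw [rn_empty, one_smul]⟩⟩)
      (fun s t hs ht w hw => by
        obtain ⟨v, hv, ⟨x, hx, e1⟩, ⟨y, hy, e2⟩⟩ := ht w hw
        obtain ⟨v', hv', ⟨x', hx', e3⟩, ⟨y', hy', e4⟩⟩ := hs v hv
        refine ⟨v', hv', ⟨x' * x, mul_ne_zero hx' hx, ?_⟩, ⟨y' * y, mul_ne_zero hy' hy, ?_⟩⟩
        · rw [e3, e1, map_smul, rn_rn, mul_smul]
        · rw [e4, e2, map_smul, rn_rn, mul_smul]) hs {v ∈ S | θ v = θ w}
      (fun s hs z1 z2 z3 => by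
        obtain ⟨v, hv, p1, p2⟩ := hs w h1
        obtain ⟨x, hx, e⟩ := fm_par z1 z2 z3 p1 p2
        refine ⟨v, mem_filter.2 ⟨mem_filter.2 ⟨hv, ?_⟩, ?_⟩, p1, p2⟩
        · rw [e]
          exact smul_ne_zero hx h2
        · simp only [θ]
          rw [e, Submodule.span_singleton_smul_eq (IsUnit.mk0 x hx)])
    refine ⟨by positivity, ?_⟩
    rw [div_le_iff₀' (by norm_num)]
    exact_mod_cast h3
  · let e := Θ.equivFin.symm
    choose g hg1 hg2 using fun t : Fin #Θ => mem_image.1 (e t).2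
    have key : ∀ l l', (fun P P' : Matrix (Fin k) (Fin k) F => (P * P') l l') ∈
        Submodule.span F (Set.range fun t => fm a b c (g t)) := by
      intro l l'
      have := mem_span_wires (fun P => xA (sw E a b cb cb P)) (fun P => xB (sw E b c d0 cb P)) 𝓜 ht
        hg (Submodule.span F (Set.range fun t => fm a b c (g t))) (fun M hM u hu => by
          change fm a b c (u, (M.erase u).prod) ∈ _
          by_cases h : fm a b c (u, (M.erase u).prod) = 0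
          · rw [h]
            exact Submodule.zero_mem _
          · have h1 := hg2 (e.symm ⟨_, mem_image_of_mem θ (mem_filter.2 ⟨hW M hM u hu, h⟩)⟩)
            rw [Equiv.apply_symm_apply] at h1
            have h2 : fm a b c (u, (M.erase u).prod) ∈ θ (u, (M.erase u).prod) :=
              Submodule.mem_span_singleton_self _
            rw [← show θ _ = θ (u, (M.erase u).prod) from h1] at h2
            exact Submodule.span_mono (Set.singleton_subset_iff.2 (Set.mem_range_self _)) h2)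
        (hout (Sum.inl (a, true, l)) (Sum.inl (c, true, l')))
      simpa only [Q_out, sw_mul] using this
    choose cf hcf using fun l l' => (Submodule.mem_span_range_iff_exists_fun F).1 (key l l')
    refine ⟨fun t => L (g t).1 ∘ₗ xA ∘ₗ sw E a b cb cb, fun t => L (g t).2 ∘ₗ xB ∘ₗ sw E b c d0 cb,
      fun t => Matrix.of fun l l' => cf l l' t, fun P P' => ?_⟩
    ext l l'
    have := congrFun (congrFun (hcf l l') P) P'
    rw [← this, Matrix.sum_apply, Finset.sum_apply, Finset.sum_apply]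
    exact sum_congr rfl fun t _ => mul_comm _ _

theorem main [Fintype E] (hr : 3 ≤ r) (𝓜 : Finset (Multiset (MvPolynomial (Var r k E) F)))
    (ht : Multiset (MvPolynomial (Var r k E) F) → ℕ)
    (hg : ∀ M ∈ 𝓜, ∀ u ∈ M, u ∈ Submodule.span F
      (Set.range X ∪ {1} ∪ {p | ∃ N ∈ 𝓜, ht N < ht M ∧ p = N.prod}))
    (hout : ∀ i j : Idx r k E, ∑ l, X (Sum.inl (i, l)) * X (Sum.inr (l, j)) ∈ Submodule.span F
      (Set.range X ∪ {1} ∪ {p | ∃ N ∈ 𝓜, p = N.prod}))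
    (hsym : ∀ (i : Fin r) (T : Finset (Fin r)), #T ≤ 10 → i ∉ T → ∃ s, i ∈ s ∧ Disjoint s T ∧
      ∀ M ∈ 𝓜, ∃ N ∈ 𝓜, Multiset.Rel (Par (F := F)) (M.map (rename (sv s))) N) :
    ∃ R : ℕ, R * (r / 3) ^ 3 ≤ 4 * ∑ M ∈ 𝓜, M.card ∧ Bil F k R := by
  classical
  let W := 𝓜.biUnion fun M => M.toFinset.image fun u => (u, (M.erase u).prod)
  have hW : ∀ M ∈ 𝓜, ∀ u ∈ M, (u, (M.erase u).prod) ∈ W := fun M hM u hu =>
    mem_biUnion.2 ⟨M, hM, mem_image_of_mem _ (Multiset.mem_toFinset.2 hu)⟩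
  have hcard : #W ≤ ∑ M ∈ 𝓜, M.card :=
    card_biUnion_le.trans (sum_le_sum fun M _ => card_image_le.trans M.toFinset_card_le)
  have hs : ∀ (i : Fin r) (T : Finset (Fin r)), #T ≤ 10 → i ∉ T → ∃ s, i ∈ s ∧ Disjoint s T ∧
      ∀ w ∈ W, ∃ v ∈ W, Par (F := F) (rename (sv s) w.1) v.1 ∧
        Par (F := F) (rename (sv s) w.2) v.2 := by
    intro i T hT hi
    obtain ⟨s, s1, s2, s3⟩ := hsym i T hT hi
    refine ⟨s, s1, s2, fun w hw => ?_⟩
    obtain ⟨M, hM, hw⟩ := mem_biUnion.1 hw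
    obtain ⟨u, hu, rfl⟩ := mem_image.1 hw
    obtain ⟨N, hN, h⟩ := s3 M hM
    rw [← Multiset.cons_erase (Multiset.mem_toFinset.1 hu), Multiset.map_cons,
      Multiset.rel_cons_left] at h
    obtain ⟨u', N', h1, h2, rfl⟩ := h
    refine ⟨_, hW _ hN u' (Multiset.mem_cons_self _ _), h1, ?_⟩
    rw [Multiset.erase_cons_head, map_multiset_prod]
    exact par_prod h2
  obtain ⟨R1, -, c1⟩ := exists_subset_card_eq (s := (univ : Finset (Fin r))) (n := r / 3)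
    (by rw [card_univ, Fintype.card_fin]; omega)
  obtain ⟨R2, t2, c2⟩ := exists_subset_card_eq (s := R1ᶜ) (n := r / 3)
    (by rw [card_compl, Fintype.card_fin]; omega)
  obtain ⟨R3, t3, c3⟩ := exists_subset_card_eq (s := (R1 ∪ R2)ᶜ) (n := r / 3)
    (by rw [card_compl, Fintype.card_fin]; have := card_union_le R1 R2; omega)
  have h12 : Disjoint R1 R2 := disjoint_right.2 fun x hx => mem_compl.1 (t2 hx)
  have h13 : Disjoint R1 R3 := disjoint_right.2 fun x hx h => mem_compl.1 (t3 hx) (mem_union_left _ h)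
  have h23 : Disjoint R2 R3 := disjoint_right.2 fun x hx h => mem_compl.1 (t3 hx) (mem_union_right _ h)
  have hc : #(R1 ×ˢ R2 ×ˢ R3) = (r / 3) ^ 3 := by
    rw [card_product, card_product, c1, c2, c3]
    ring
  have hne : (R1 ×ˢ R2 ×ˢ R3).Nonempty := card_pos.1 (hc ▸ pow_pos (by omega) 3)
  obtain ⟨T, hT, hmin⟩ := exists_min_image _ (fun T : Fin r × Fin r × Fin r =>
    ∑ w ∈ W with fm T.1 T.2.1 T.2.2 w ≠ 0, 1 / ((#(srv R1 R2 R3 w) : ℝ) / 4)) hne
  obtain ⟨R, hR, hB⟩ := triple 𝓜 ht hg hout W hW hs h12 h13 h23 (mem_product.1 hT).1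
    (mem_product.1 (mem_product.1 hT).2).1 (mem_product.1 (mem_product.1 hT).2).2
  refine ⟨R, le_trans ?_ (Nat.mul_le_mul_left 4 hcard), hB⟩
  have h1 : (R : ℝ) * ((r / 3) ^ 3 : ℕ) ≤ ∑ T ∈ R1 ×ˢ R2 ×ˢ R3,
      ∑ w ∈ W with fm T.1 T.2.1 T.2.2 w ≠ 0, 1 / ((#(srv R1 R2 R3 w) : ℝ) / 4) := by
    refine le_trans (le_of_eq ?_) (card_nsmul_le_sum _ _ _ fun T' hT' => hR.trans (hmin T' hT'))
    rw [hc, nsmul_eq_mul, mul_comm]
  have h2 : ∑ T ∈ R1 ×ˢ R2 ×ˢ R3,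
      ∑ w ∈ W with fm T.1 T.2.1 T.2.2 w ≠ 0, 1 / ((#(srv R1 R2 R3 w) : ℝ) / 4) ≤
        ∑ w ∈ W, (4 : ℝ) := by
    simp only [sum_filter]
    rw [sum_comm]
    refine sum_le_sum fun w _ => ?_
    rw [← sum_filter, sum_const, nsmul_eq_mul, one_div_div, ← mul_div_assoc, mul_comm,
      mul_div_assoc]
    exact mul_le_of_le_one_right (by norm_num) (div_self_le_one (#(srv R1 R2 R3 w) : ℝ))
  rw [sum_const, nsmul_eq_mul, mul_comm (#W : ℝ)] at h2
  exact_mod_cast h1.trans h2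

theorem main' [Fintype E] (hr : 3 ≤ r) {I : Type} [Fintype I] (e : Idx r k E ≃ I)
    (g : Finset (Fin r) → I → I)
    (hg1 : ∀ s i b l, g s (e (Sum.inl (i, b, l))) = e (Sum.inl (i, if i ∈ s then !b else b, l)))
    (hg2 : ∀ s x, g s (e (Sum.inr x)) = e (Sum.inr x))
    (𝓜 : Finset (Multiset (MvPolynomial ((I × I) ⊕ (I × I)) F)))
    (ht : Multiset (MvPolynomial ((I × I) ⊕ (I × I)) F) → ℕ)
    (hgate : ∀ M ∈ 𝓜, ∀ u ∈ M, u ∈ Submodule.span F
      (Set.range X ∪ {1} ∪ {p | ∃ N ∈ 𝓜, ht N < ht M ∧ p = N.prod}))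
    (hout : ∀ i j : I, ∑ l, X (Sum.inl (i, l)) * X (Sum.inr (l, j)) ∈ Submodule.span F
      (Set.range X ∪ {1} ∪ {p | ∃ N ∈ 𝓜, p = N.prod}))
    (hsym : ∀ (i : Fin r) (T : Finset (Fin r)), #T ≤ 10 → i ∉ T →
      ∃ s, i ∈ s ∧ Disjoint s T ∧ ∀ M ∈ 𝓜, ∃ N ∈ 𝓜, Multiset.Rel (Par (F := F))
          (M.map (rename (Sum.map (Prod.map (g s) (g s)) (Prod.map (g s) (g s))))) N) :
    ∃ R : ℕ, R * (r / 3) ^ 3 ≤ 4 * ∑ M ∈ 𝓜, M.card ∧ Bil F k R := by
  classical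
  let τ : Var r k E ≃ (I × I) ⊕ (I × I) := (e.prodCongr e).sumCongr (e.prodCongr e)
  let ψ : MvPolynomial ((I × I) ⊕ (I × I)) F →ₐ[F] MvPolynomial (Var r k E) F := rename τ.symm
  have hge : ∀ s x, g s (e x) = e (act s x) := by
    rintro s (⟨i, b, l⟩ | x)
    · exact hg1 s i b l
    · exact hg2 s x
  have hτ : ∀ s, τ.symm ∘ Sum.map (Prod.map (g s) (g s)) (Prod.map (g s) (g s)) = sv s ∘ τ.symm := by
    intro s
    ext1 v
    obtain ⟨v, rfl⟩ := τ.surjective v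
    rw [Function.comp_apply, Function.comp_apply, Equiv.symm_apply_apply, Equiv.symm_apply_eq]
    rcases v with v | v <;> simp [τ, sv, hge, Prod.map]
  have hspan : ∀ (S : Set (MvPolynomial ((I × I) ⊕ (I × I)) F))
      (S' : Set (MvPolynomial (Var r k E) F)), (∀ p ∈ S, ψ p ∈ S') →
      ∀ u ∈ Submodule.span F (Set.range X ∪ {1} ∪ S),
        ψ u ∈ Submodule.span F (Set.range X ∪ {1} ∪ S') := by
    intro S S' h
    change Submodule.span F _ ≤ (Submodule.span F _).comap ψ.toLinearMap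
    rw [Submodule.span_le]
    rintro p ((⟨v, rfl⟩ | rfl) | hp) <;> refine Submodule.subset_span ?_
    · exact Or.inl (Or.inl ⟨_, (rename_X _ _).symm⟩)
    · exact Or.inl (Or.inr (map_one ψ))
    · exact Or.inr (h p hp)
  have hinv : ∀ M : Multiset (MvPolynomial ((I × I) ⊕ (I × I)) F),
      (M.map ψ).map (rename τ) = M := by
    intro M
    rw [Multiset.map_map]
    refine (Multiset.map_congr rfl fun u _ => ?_).trans (Multiset.map_id' M)
    simp [ψ, rename_rename]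
  obtain ⟨R, h1, h2⟩ := main (F := F) (E := E) (k := k) hr (𝓜.image (Multiset.map ψ))
    (fun M => ht (M.map (rename τ))) (fun M' hM' u' hu' => by
      obtain ⟨M, hM, rfl⟩ := mem_image.1 hM'
      obtain ⟨u, hu, rfl⟩ := Multiset.mem_map.1 hu'
      refine hspan _ _ ?_ u (hgate M hM u hu)
      rintro _ ⟨N, hN, h, rfl⟩
      exact ⟨_, mem_image_of_mem _ hN, by rwa [hinv, hinv], map_multiset_prod _ _⟩)
    (fun i j => by
      have := hspan _ {p | ∃ N ∈ 𝓜.image (Multiset.map ψ), p = N.prod} (by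
        rintro _ ⟨N, hN, rfl⟩
        exact ⟨_, mem_image_of_mem _ hN, map_multiset_prod _ _⟩) _ (hout (e i) (e j))
      rw [← e.sum_comp, map_sum] at this
      simpa [ψ, τ] using this)
    (fun i T hT hi => by
      obtain ⟨s, s1, s2, s3⟩ := hsym i T hT hi
      refine ⟨s, s1, s2, fun M' hM' => ?_⟩
      obtain ⟨M, hM, rfl⟩ := mem_image.1 hM'
      obtain ⟨N, hN, h⟩ := s3 M hM
      refine ⟨_, mem_image_of_mem _ hN, ?_⟩
      rw [Multiset.map_map, Multiset.rel_map]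
      rw [Multiset.rel_map_left] at h
      refine h.mono fun p _ q _ ⟨c, hc, h⟩ => ⟨c, hc, ?_⟩
      simp only [h, ψ, map_smul, Function.comp_apply, rename_rename, hτ])
  refine ⟨R, h1.trans (Nat.mul_le_mul_left 4 ?_), h2⟩
  rw [sum_image fun M _ N _ h => by rw [← hinv M, h, hinv]]
  simp

end Pool.Agent.P.MP_e72dc0_lc.Sy
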